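import Pool.Agent.MP_6bb8b9_an.H2.Spec

/-!
Item A: the weak (1,1) bound of the centered maximal function, the sum over dyadic annuli,
integrability of truncated integrals and the comparison of truncated integrals at close points.
-/

open MeasureTheory Set Filter Metric
open scoped ENNReal NNReal

namespace Pool.Agent.MP_6bb8b9_an.H5

open Pool.Agent.MP_6bb8b9_an.H2

variable {n : ℕ} {𝕜 : Type} [RCLike 𝕜]

lemma ball_le_Mx (h : Euc n → ℝ≥0∞) (x : Euc n) {r : ℝ} (hr : 0 < r) :
    ∫⁻ y in ball x r, h y ≤ ENNReal.ofReal (r ^ n) * Mx h x := by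
  have h1 : (∫⁻ y in ball x r, h y) / ENNReal.ofReal (r ^ n) ≤ Mx h x := by
    unfold Mx
    exact le_iSup₂_of_le (f := fun (r : ℝ) (_ : 0 < r) =>
      (∫⁻ y in Metric.ball x r, h y) / ENNReal.ofReal (r ^ n)) r hr le_rfl
  have h0 : ENNReal.ofReal (r ^ n) ≠ 0 := by
    simp [pow_pos hr]
  rw [ENNReal.div_le_iff h0 ENNReal.ofReal_ne_top] at h1
  rwa [mul_comm]

lemma volume_ball_eq (x : Euc n) {r : ℝ} (hr : 0 < r) :
    volume (ball x r) = ENNReal.ofReal (r ^ n) * volume (ball (0 : Euc n) 1) := by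
  have := Measure.addHaar_ball_of_pos (volume : Measure (Euc n)) x hr
  simpa using this

theorem itemA1 (hn : 0 < n) : SpecMWeak n := by
  set ω : ℝ≥0∞ := volume (ball (0 : Euc n) 1) with hω
  have hωt : ω ≠ ∞ := measure_ball_lt_top.ne
  refine ⟨5 ^ n * ω.toNNReal + 1, fun h _ t => ?_⟩
  set I := ∫⁻ x, h x with hI
  by_cases hIt : I = ∞
  · rw [hIt, ENNReal.mul_top (by simp)]; exact le_top
  by_cases ht : t = 0
  · simp [ht]
  set S := {x | (t : ℝ≥0∞) < Mx h x} with hS
  have hex : ∀ x ∈ S, ∃ r : ℝ, 0 < r ∧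
      (t : ℝ≥0∞) * ENNReal.ofReal (r ^ n) < ∫⁻ y in ball x r, h y := by
    intro x hx
    simp only [hS, mem_ofPred_eq, Mx, lt_iSup_iff] at hx
    obtain ⟨r, hr, hlt⟩ := hx
    refine ⟨r, hr, ?_⟩
    have h0 : ENNReal.ofReal (r ^ n) ≠ 0 := by simp [pow_pos hr]
    rwa [ENNReal.lt_div_iff_mul_lt (Or.inl h0) (Or.inl ENNReal.ofReal_ne_top)] at hlt
  choose! r hr0 hr using hex
  have htpos : (0 : ℝ) < t := by positivity
  have hR : ∀ x ∈ S, r x ≤ max 1 (I.toReal / t) := by
    intro x hx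
    by_contra hc
    push Not at hc
    have h1 : 1 < r x := lt_of_le_of_lt (le_max_left _ _) hc
    have h2 : I.toReal / t < r x := lt_of_le_of_lt (le_max_right _ _) hc
    have h3 : r x ≤ r x ^ n := le_self_pow₀ h1.le hn.ne'
    have h4 : (t : ℝ≥0∞) * ENNReal.ofReal (r x ^ n) < I :=
      (hr x hx).trans_le (setLIntegral_le_lintegral _ _)
    have h5 : (t : ℝ) * r x ^ n < I.toReal := by
      have := (ENNReal.toReal_lt_toReal (ENNReal.mul_ne_top ENNReal.coe_ne_top
        ENNReal.ofReal_ne_top) hIt).2 h4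
      rwa [ENNReal.toReal_mul, ENNReal.coe_toReal, ENNReal.toReal_ofReal (by positivity)] at this
    rw [div_lt_iff₀ htpos] at h2
    nlinarith
  obtain ⟨u, huS, hdisj, hcov⟩ :=
    Vitali.exists_disjoint_subfamily_covering_enlargement_ball S (fun x => x) r _ hR 5 (by norm_num)
  have hcount : u.Countable :=
    hdisj.countable_of_isOpen (fun _ _ => isOpen_ball)
      (fun b hb => nonempty_ball.2 (hr0 b (huS hb)))
  have hsub : S ⊆ ⋃ b ∈ u, ball b (5 * r b) := by
    intro x hx
    obtain ⟨b, hb, hxb⟩ := hcov x hx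
    exact mem_biUnion hb (hxb (mem_ball_self (hr0 x hx)))
  have : Countable u := hcount.to_subtype
  calc (t : ℝ≥0∞) * volume S ≤ t * ∑' b : u, volume (ball (b : Euc n) (5 * r b)) := by
        gcongr
        exact (measure_mono hsub).trans (measure_biUnion_le _ hcount _)
    _ = ∑' b : u, (5 ^ n * ω) * (t * ENNReal.ofReal (r b ^ n)) := by
        rw [← ENNReal.tsum_mul_left]
        refine tsum_congr fun b => ?_
        have hb := hr0 b (huS b.2)
        rw [volume_ball_eq _ (by positivity), mul_pow, ENNReal.ofReal_mul (by positivity),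
          ENNReal.ofReal_pow (by norm_num)]
        simp only [ENNReal.ofReal_ofNat]
        ring
    _ ≤ ∑' b : u, (5 ^ n * ω) * ∫⁻ y in ball (b : Euc n) (r b), h y := by
        gcongr with b
        exact (hr b (huS b.2)).le
    _ = (5 ^ n * ω) * ∫⁻ y in ⋃ b : u, ball (b : Euc n) (r b), h y := by
        rw [ENNReal.tsum_mul_left, lintegral_iUnion (fun _ => measurableSet_ball)]
        intro a b hab
        exact hdisj a.2 b.2 (fun e => hab (Subtype.ext e))
    _ ≤ (5 ^ n * ω) * I := by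
        gcongr
        exact setLIntegral_le_lintegral _ _
    _ ≤ ((5 ^ n * ω.toNNReal + 1 : ℝ≥0) : ℝ≥0∞) * I := by
        gcongr
        push_cast
        rw [ENNReal.coe_toNNReal hωt]
        exact le_self_add

theorem itemA2 {δ : ℝ} (hδ : 0 < δ) : SpecAnnuli n δ := by
  set q : ℝ := (2 : ℝ) ^ (-δ) with hq
  have hq0 : 0 < q := by positivity
  have hq1 : q < 1 := Real.rpow_lt_one_of_one_lt_of_neg (by norm_num) (by linarith)
  refine ⟨⟨2 ^ n * (1 - q)⁻¹, by have : 0 < 1 - q := by linarith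
                                 positivity⟩, fun h _ x r hr => ?_⟩
  set A : ℕ → Set (Euc n) := fun j => {y | 2 ^ j * r ≤ ‖y - x‖} ∩ ball x (2 ^ (j + 1) * r) with hA
  have hsub : {y | r ≤ ‖y - x‖} ⊆ ⋃ j, A j := by
    intro y hy
    have hy' : 1 ≤ ‖y - x‖ / r := by
      rw [le_div_iff₀ hr]; simpa using hy
    obtain ⟨j, h1, h2⟩ := exists_nat_pow_near hy' (by norm_num : (1 : ℝ) < 2)
    rw [le_div_iff₀ hr] at h1
    rw [div_lt_iff₀ hr] at h2
    exact mem_iUnion.2 ⟨j, h1, by rw [mem_ball, dist_eq_norm]; exact h2⟩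
  have hmeas : ∀ j, MeasurableSet (A j) := by
    intro j
    refine MeasurableSet.inter ?_ measurableSet_ball
    exact (isClosed_le continuous_const (by fun_prop)).measurableSet
  have hj : ∀ j, ∫⁻ y in A j, ENNReal.ofReal (r ^ δ * ‖y - x‖ ^ (-(n : ℝ) - δ)) * h y
      ≤ ENNReal.ofReal (2 ^ n * q ^ j) * Mx h x := by
    intro j
    have hp : (0 : ℝ) < 2 ^ j * r := by positivity
    calc ∫⁻ y in A j, ENNReal.ofReal (r ^ δ * ‖y - x‖ ^ (-(n : ℝ) - δ)) * h y
        ≤ ∫⁻ y in A j, ENNReal.ofReal (r ^ δ * (2 ^ j * r) ^ (-(n : ℝ) - δ)) * h y := by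
          refine setLIntegral_mono' (hmeas j) fun y hy => ?_
          gcongr ?_ * _
          refine ENNReal.ofReal_le_ofReal ?_
          gcongr _ * ?_
          exact Real.rpow_le_rpow_of_nonpos hp hy.1 (by have : (0 : ℝ) ≤ n := n.cast_nonneg
                                                        linarith)
      _ = ENNReal.ofReal (r ^ δ * (2 ^ j * r) ^ (-(n : ℝ) - δ)) * ∫⁻ y in A j, h y :=
          lintegral_const_mul' _ _ ENNReal.ofReal_ne_top
      _ ≤ ENNReal.ofReal (r ^ δ * (2 ^ j * r) ^ (-(n : ℝ) - δ)) *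
            (ENNReal.ofReal ((2 ^ (j + 1) * r) ^ n) * Mx h x) := by
          gcongr
          exact (lintegral_mono_set inter_subset_right).trans (ball_le_Mx h x (by positivity))
      _ = ENNReal.ofReal (2 ^ n * q ^ j) * Mx h x := by
          rw [← mul_assoc, ← ENNReal.ofReal_mul (by positivity)]
          congr 2
          have e1 : ((2 : ℝ) ^ (j + 1) * r) ^ n = 2 ^ n * (2 ^ j * r) ^ (n : ℝ) := by
            rw [Real.rpow_natCast, ← mul_pow]; congr 1; ring
          have e2 : ((2 : ℝ) ^ j * r) ^ (-(n : ℝ) - δ) * (2 ^ j * r) ^ (n : ℝ)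
              = (2 ^ j * r) ^ (-δ) := by
            rw [← Real.rpow_add hp]; congr 1; ring
          have e3 : ((2 : ℝ) ^ j * r) ^ (-δ) = q ^ j * r ^ (-δ) := by
            rw [Real.mul_rpow (by positivity) hr.le, hq, ← Real.rpow_natCast,
              ← Real.rpow_natCast, ← Real.rpow_mul (by norm_num), ← Real.rpow_mul (by norm_num),
              mul_comm (j : ℝ)]
          have e4 : r ^ δ * r ^ (-δ) = 1 := by
            rw [← Real.rpow_add hr]; simp
          calc r ^ δ * (2 ^ j * r) ^ (-(n : ℝ) - δ) * (2 ^ (j + 1) * r) ^ n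
              = 2 ^ n * r ^ δ * ((2 ^ j * r) ^ (-(n : ℝ) - δ) * (2 ^ j * r) ^ (n : ℝ)) := by
                rw [e1]; ring
            _ = 2 ^ n * q ^ j * (r ^ δ * r ^ (-δ)) := by rw [e2, e3]; ring
            _ = 2 ^ n * q ^ j := by rw [e4, mul_one]
  calc ∫⁻ y in {y | r ≤ ‖y - x‖}, ENNReal.ofReal (r ^ δ * ‖y - x‖ ^ (-(n : ℝ) - δ)) * h y
      ≤ ∫⁻ y in ⋃ j, A j, ENNReal.ofReal (r ^ δ * ‖y - x‖ ^ (-(n : ℝ) - δ)) * h y :=
        lintegral_mono_set hsub
    _ ≤ ∑' j, ∫⁻ y in A j, ENNReal.ofReal (r ^ δ * ‖y - x‖ ^ (-(n : ℝ) - δ)) * h y :=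
        lintegral_iUnion_le _ _
    _ ≤ ∑' j, ENNReal.ofReal (2 ^ n * q ^ j) * Mx h x := ENNReal.tsum_le_tsum hj
    _ = ENNReal.ofReal (2 ^ n * (1 - q)⁻¹) * Mx h x := by
        rw [ENNReal.tsum_mul_right]
        congr 1
        rw [← ENNReal.ofReal_tsum_of_nonneg (fun j => by positivity)
          ((summable_geometric_of_lt_one hq0.le hq1).mul_left _), tsum_mul_left,
          tsum_geometric_of_lt_one hq0.le hq1]
    _ = _ := by
        congr 1
        exact ENNReal.ofReal_eq_coe_nnreal _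

lemma continuousOn_kernel {K : Euc n → Euc n → 𝕜} {c δ : ℝ} (hK : KB K c δ) (x : Euc n) :
    ContinuousOn (K x) {x}ᶜ := by
  intro y hy
  refine ContinuousAt.continuousWithinAt ?_
  have hyx : 0 < ‖y - x‖ := norm_pos_iff.2 (sub_ne_zero.2 hy)
  rw [ContinuousAt, tendsto_iff_norm_sub_tendsto_zero]
  have hlim : Tendsto (fun z : Euc n => c * ‖y - z‖ ^ δ * ‖y - x‖ ^ (-(n : ℝ) - δ)) (nhds y)
      (nhds 0) := by
    have hc : Continuous fun z : Euc n => c * ‖y - z‖ ^ δ * ‖y - x‖ ^ (-(n : ℝ) - δ) := by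
      refine (continuous_const.mul ?_).mul continuous_const
      exact Continuous.rpow_const (by fun_prop) fun _ => Or.inr hK.δ_pos.le
    have := hc.tendsto y
    simpa [Real.zero_rpow hK.δ_pos.ne'] using this
  refine squeeze_zero' (Eventually.of_forall fun _ => norm_nonneg _) ?_ hlim
  have hev : ∀ᶠ z in nhds y, 2 * ‖y - z‖ < ‖y - x‖ := by
    have hc : Continuous fun z : Euc n => 2 * ‖y - z‖ := by fun_prop
    exact hc.continuousAt.eventually_lt continuousAt_const (by rw [sub_self, norm_zero, mul_zero]; exact hyx)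
  filter_upwards [hev] with z hz
  have := hK.reg y x z hz
  rw [norm_sub_rev]
  linarith [norm_nonneg (K y x - K z x)]

lemma kernel_le {K : Euc n → Euc n → 𝕜} {c δ : ℝ} (hK : KB K c δ) {x y : Euc n} {ε : ℝ}
    (hε : 0 < ε) (h : ε < ‖y - x‖) : ‖K x y‖ ≤ c * ε ^ (-(n : ℝ)) := by
  have hne : x ≠ y := by
    rintro rfl
    simp at h
    linarith
  refine (hK.size x y hne).trans ?_
  have hc := hK.c_nonneg
  gcongr _ * ?_
  rw [norm_sub_rev]
  exact Real.rpow_le_rpow_of_nonpos hε h.le (by simp)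

lemma measurableSet_far (x : Euc n) (ε : ℝ) : MeasurableSet {y : Euc n | ε < ‖y - x‖} :=
  (isOpen_lt continuous_const (by fun_prop)).measurableSet

theorem itemA3 (hn : 0 < n) {K : Euc n → Euc n → 𝕜} {c δ : ℝ} (hK : KB K c δ) : SpecInt K := by
  have : Nonempty (Fin n) := ⟨⟨0, hn⟩⟩
  have hm : ∀ x, AEStronglyMeasurable (K x) volume := by
    intro x
    have := (continuousOn_kernel hK x).aestronglyMeasurable (μ := volume)
      (measurableSet_singleton x).compl
    rwa [restrict_compl_singleton] at this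
  refine ⟨hm, fun g hg x ε hε => ?_⟩
  refine Integrable.bdd_mul (c := c * ε ^ (-(n : ℝ))) hg.integrableOn (hm x).restrict ?_
  filter_upwards [ae_restrict_mem (measurableSet_far x ε)] with y hy
  exact kernel_le hK hε hy

theorem itemA4 (hn : 0 < n) {K : Euc n → Euc n → 𝕜} {c δ : ℝ} (hK : KB K c δ) :
    SpecCompare K := by
  obtain ⟨CA, hCA⟩ := itemA2 (n := n) hK.δ_pos
  obtain ⟨-, hint⟩ := itemA3 hn hK
  have hc := hK.c_nonneg
  refine ⟨c.toNNReal * (CA + 2 ^ n), fun g hg x x' ε hε hxx => ?_⟩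
  set A := {y : Euc n | ε < ‖y - x‖} with hA
  set A' := {y : Euc n | ε < ‖y - x'‖} with hA'
  set B := {y : Euc n | ε ≤ ‖y - x'‖} with hB
  have hAm : MeasurableSet A := measurableSet_far x ε
  have hA'm : MeasurableSet A' := measurableSet_far x' ε
  have hBm : MeasurableSet B := (isClosed_le continuous_const (by fun_prop)).measurableSet
  have i1 : Integrable (A.indicator fun y => K x y * g y) volume :=
    (integrable_indicator_iff hAm).2 (hint g hg x ε hε)
  have i2 : Integrable (A'.indicator fun y => K x' y * g y) volume :=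
    (integrable_indicator_iff hA'm).2 (hint g hg x' ε hε)
  have hgm : AEMeasurable (fun y => ‖g y‖ₑ) volume := hg.aestronglyMeasurable.enorm
  have e : Tr K g x ε - Tr K g x' ε = ∫ y, (A.indicator (fun y => K x y * g y) y
      - A'.indicator (fun y => K x' y * g y) y) := by
    rw [integral_sub i1 i2, integral_indicator hAm, integral_indicator hA'm]
    rfl
  have hpt : ∀ y, ‖A.indicator (fun y => K x y * g y) y - A'.indicator (fun y => K x' y * g y) y‖ₑ
      ≤ ENNReal.ofReal c * B.indicator (fun y =>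
          ENNReal.ofReal (ε ^ δ * ‖y - x'‖ ^ (-(n : ℝ) - δ)) * ‖g y‖ₑ) y
        + ENNReal.ofReal (c * ε ^ (-(n : ℝ))) * (ball x' (2 * ε)).indicator (fun y => ‖g y‖ₑ) y := by
    intro y
    have htri1 : ‖y - x'‖ ≤ ‖y - x‖ + ‖x - x'‖ := norm_sub_le_norm_sub_add_norm_sub _ _ _
    by_cases hy : y ∈ A <;> by_cases hy' : y ∈ A'
    · refine le_trans ?_ le_self_add
      have hyB : y ∈ B := (le_of_lt (show ε < ‖y - x'‖ from hy') : ε ≤ ‖y - x'‖)
      rw [indicator_of_mem hy, indicator_of_mem hy', indicator_of_mem hyB, ← sub_mul, enorm_mul,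
        ← mul_assoc, ← ENNReal.ofReal_mul hc]
      gcongr
      rw [← ofReal_norm]
      refine ENNReal.ofReal_le_ofReal ?_
      have hy'' : ε < ‖y - x'‖ := hy'
      have h2 : 2 * ‖x' - x‖ < ‖x' - y‖ := by
        rw [norm_sub_rev x' x, norm_sub_rev x' y]; linarith
      have h3 := hK.reg x' y x h2
      rw [norm_sub_rev x' y] at h3
      have h4 : ‖x' - x‖ ^ δ ≤ ε ^ δ := by
        refine Real.rpow_le_rpow (norm_nonneg _) ?_ hK.δ_pos.le
        rw [norm_sub_rev]; linarith [norm_nonneg (x - x')]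
      have h5 : 0 ≤ ‖y - x'‖ ^ (-(n : ℝ) - δ) := by positivity
      rw [norm_sub_rev]
      calc ‖K x' y - K x y‖ ≤ c * ‖x' - x‖ ^ δ * ‖y - x'‖ ^ (-(n : ℝ) - δ) := by
            linarith [norm_nonneg (K y x' - K y x)]
        _ ≤ c * ε ^ δ * ‖y - x'‖ ^ (-(n : ℝ) - δ) := by gcongr
        _ = _ := by ring
    · refine le_trans ?_ le_add_self
      have hy2 : ‖y - x'‖ ≤ ε := not_lt.1 hy'
      have hyb : y ∈ ball x' (2 * ε) := by rw [mem_ball, dist_eq_norm]; linarith
      rw [indicator_of_mem hy, indicator_of_notMem hy', indicator_of_mem hyb, sub_zero, enorm_mul]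
      gcongr
      rw [← ofReal_norm]
      exact ENNReal.ofReal_le_ofReal (kernel_le hK hε hy)
    · refine le_trans ?_ le_add_self
      have hy2 : ‖y - x‖ ≤ ε := not_lt.1 hy
      have hyb : y ∈ ball x' (2 * ε) := by rw [mem_ball, dist_eq_norm]; linarith
      rw [indicator_of_notMem hy, indicator_of_mem hy', indicator_of_mem hyb, zero_sub, enorm_neg,
        enorm_mul]
      gcongr
      rw [← ofReal_norm]
      exact ENNReal.ofReal_le_ofReal (kernel_le hK hε hy')
    · rw [indicator_of_notMem hy, indicator_of_notMem hy']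
      simp
  rw [e]
  refine (enorm_integral_le_lintegral_enorm _).trans ((lintegral_mono hpt).trans ?_)
  rw [lintegral_add_right' _ ((hgm.indicator measurableSet_ball).const_mul _),
    lintegral_const_mul' _ _ ENNReal.ofReal_ne_top, lintegral_const_mul' _ _ ENNReal.ofReal_ne_top,
    lintegral_indicator hBm, lintegral_indicator measurableSet_ball]
  have b1 := hCA _ hgm x' ε hε
  have b2 := ball_le_Mx (fun y => ‖g y‖ₑ) x' (r := 2 * ε) (by positivity)
  calc _ ≤ ENNReal.ofReal c * (CA * Mx (fun y => ‖g y‖ₑ) x') + ENNReal.ofReal (c * ε ^ (-(n : ℝ)))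
        * (ENNReal.ofReal ((2 * ε) ^ n) * Mx (fun y => ‖g y‖ₑ) x') := by gcongr
    _ = _ := by
        have e1 : ENNReal.ofReal (c * ε ^ (-(n : ℝ))) * ENNReal.ofReal ((2 * ε) ^ n)
            = ENNReal.ofReal c * 2 ^ n := by
          rw [← ENNReal.ofReal_mul (by positivity)]
          have : c * ε ^ (-(n : ℝ)) * (2 * ε) ^ n = c * 2 ^ n := by
            rw [Real.rpow_neg hε.le, Real.rpow_natCast, mul_pow]
            field_simp
          rw [this, ENNReal.ofReal_mul hc, ENNReal.ofReal_pow (by norm_num)]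
          simp
        rw [← mul_assoc (ENNReal.ofReal (c * ε ^ (-(n : ℝ)))), e1]
        push_cast
        rw [ENNReal.ofReal]
        ring

end Pool.Agent.MP_6bb8b9_an.H5
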